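import Pool.Agent.N201.MC.Defs

/-! # Colour dependent densities: local quadratic forms (after helper818's file for equal densities) -/

set_option autoImplicit false
set_option linter.unusedVariables false
set_option linter.unusedSectionVars false

namespace Pool.Agent.N201.MC

open Finset Pool.Agent.H256R2.SC

variable {n : ℕ} {κ : Type} [Fintype κ] [DecidableEq κ]

lemma inner_none (g : κ → ℝ) (Y : Option κ → ℝ) :
    ∑ a, psic1 g a (none : Option κ) * Y a = Y none - ∑ k, g k * Y (some k) := by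
  rw [Fintype.sum_option]
  simp only [psic1, reduceCtorEq, if_false, zero_sub, one_mul]
  rw [sub_eq_add_neg, ← sum_neg_distrib]
  congr 1
  exact sum_congr rfl fun k _ => by ring

lemma inner_some (g : κ → ℝ) (Y : Option κ → ℝ) (l : κ) :
    ∑ a, psic1 g a (some l) * Y a = (Y none - ∑ k, g k * Y (some k)) + Y (some l) := by
  rw [Fintype.sum_option]
  simp only [psic1, one_mul, Option.some.injEq]
  have h : ∑ k, ((if l = k then (1 : ℝ) else 0) - g k) * Y (some k) =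
      Y (some l) - ∑ k, g k * Y (some k) := by
    simp only [sub_mul, sum_sub_distrib, ite_mul, one_mul, zero_mul, sum_ite_eq, mem_univ, if_true]
  rw [h]
  ring

theorem local_id (g : κ → ℝ) (Y : Option κ → ℝ) :
    ∑ c, wtc g c * (∑ a, psic1 g a c * Y a) ^ 2 =
      (Y none) ^ 2 + ∑ k, g k * (Y (some k)) ^ 2 - (∑ k, g k * Y (some k)) ^ 2 := by
  rw [Fintype.sum_option, inner_none]
  simp only [inner_some, wtc]
  set S := ∑ k, g k * Y (some k) with hS
  set A := Y none - S with hA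
  have h1 : ∑ l, g l * (A + Y (some l)) ^ 2 =
      (∑ l, g l) * A ^ 2 + 2 * A * S + ∑ l, g l * (Y (some l)) ^ 2 := by
    have : ∀ l, g l * (A + Y (some l)) ^ 2 =
        g l * A ^ 2 + 2 * A * (g l * Y (some l)) + g l * (Y (some l)) ^ 2 := by
      intro l; ring
    simp only [this, sum_add_distrib, ← mul_sum, ← sum_mul]
    rw [hS]
  rw [h1]
  have h2 : Y none = A + S := by rw [hA]; ring
  rw [h2]
  ring

lemma sum_nuc1 (g : κ → ℝ) (Y : Option κ → ℝ) :
    ∑ a, nuc1 g a * (Y a) ^ 2 = (Y none) ^ 2 + ∑ k, g k * (Y (some k)) ^ 2 := by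
  rw [Fintype.sum_option]
  simp only [nuc1, one_mul]

theorem local_upper (g : κ → ℝ) (Y : Option κ → ℝ) :
    ∑ c, wtc g c * (∑ a, psic1 g a c * Y a) ^ 2 ≤ ∑ a, nuc1 g a * (Y a) ^ 2 := by
  rw [local_id, sum_nuc1]
  have : 0 ≤ (∑ k, g k * Y (some k)) ^ 2 := by positivity
  linarith

lemma cs (g : κ → ℝ) (hg : ∀ k, 0 ≤ g k) (Y : κ → ℝ) :
    (∑ k, g k * Y k) ^ 2 ≤ (∑ k, g k) * ∑ k, g k * (Y k) ^ 2 := by
  apply Finset.sum_sq_le_sum_mul_sum_of_sq_eq_mul
  · intro i _; exact hg i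
  · intro i _; exact mul_nonneg (hg i) (sq_nonneg _)
  · intro i _; ring

theorem local_lower (g : κ → ℝ) (hg : ∀ k, 0 ≤ g k) (Y : Option κ → ℝ) :
    ∑ a, nuc1 g a * nu1 (1 - ∑ k, g k) a * (Y a) ^ 2 ≤
      ∑ c, wtc g c * (∑ a, psic1 g a c * Y a) ^ 2 := by
  rw [local_id, Fintype.sum_option]
  simp only [nuc1, nu1, one_mul]
  have h1 : ∑ k, g k * (1 - ∑ k, g k) * (Y (some k)) ^ 2 =
      ∑ k, g k * (Y (some k)) ^ 2 - (∑ k, g k) * ∑ k, g k * (Y (some k)) ^ 2 := by
    rw [mul_sum, ← sum_sub_distrib]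
    exact sum_congr rfl fun k _ => by ring
  rw [h1]
  have h2 := cs g hg (fun k => Y (some k))
  linarith

theorem local_wt (g : κ → ℝ) (t : ℝ) (hg : ∀ k, 0 ≤ g k) (ht : 0 ≤ t) (k₀ : κ)
    (htg : 3 * t * g k₀ ≤ 1) (Y : Option κ → ℝ) :
    ∑ c, wtc g c * (if c = some k₀ then 1 + t else 1) * (∑ a, psic1 g a c * Y a) ^ 2 ≤
      ∑ a, betc g t k₀ a * (Y a) ^ 2 := by
  set S := ∑ k, g k * Y (some k) with hS
  have hsplit : ∑ c, wtc g c * (if c = some k₀ then 1 + t else 1) * (∑ a, psic1 g a c * Y a) ^ 2 =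
      (∑ c, wtc g c * (∑ a, psic1 g a c * Y a) ^ 2) +
        g k₀ * t * ((Y none - S) + Y (some k₀)) ^ 2 := by
    have h1 : ∀ c : Option κ, wtc g c * (if c = some k₀ then 1 + t else 1) *
        (∑ a, psic1 g a c * Y a) ^ 2 = wtc g c * (∑ a, psic1 g a c * Y a) ^ 2 +
          (if c = some k₀ then t * wtc g c * (∑ a, psic1 g a c * Y a) ^ 2 else 0) := by
      intro c
      split_ifs
      · ring
      · ring
    rw [sum_congr rfl (fun c _ => h1 c), sum_add_distrib, sum_ite_eq' univ (some k₀),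
      if_pos (mem_univ _), inner_some]
    simp only [wtc]
    ring
  have hbet : ∑ a, betc g t k₀ a * (Y a) ^ 2 = (1 + 3 * t * g k₀) * (Y none) ^ 2 +
      ∑ k, g k * (Y (some k)) ^ 2 + 3 * t * g k₀ * (Y (some k₀)) ^ 2 := by
    rw [Fintype.sum_option]
    simp only [betc]
    have h1 : ∀ k : κ, (if k = k₀ then (1 + 3 * t) * g k else g k) * (Y (some k)) ^ 2 =
        g k * (Y (some k)) ^ 2 + (if k = k₀ then 3 * t * g k * (Y (some k)) ^ 2 else 0) := by
      intro k
      split_ifs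
      · ring
      · ring
    rw [sum_congr rfl (fun k _ => h1 k), sum_add_distrib, sum_ite_eq' univ k₀,
      if_pos (mem_univ _)]
    ring
  rw [hsplit, hbet, local_id, ← hS]
  have hg0 := hg k₀
  have h3 : ((Y none - S) + Y (some k₀)) ^ 2 ≤
      3 * ((Y none) ^ 2 + (Y (some k₀)) ^ 2 + S ^ 2) := by
    nlinarith [sq_nonneg (Y none + S), sq_nonneg (Y none - Y (some k₀)),
      sq_nonneg (S + Y (some k₀))]
  have h4 : g k₀ * t * ((Y none - S) + Y (some k₀)) ^ 2 ≤
      g k₀ * t * (3 * ((Y none) ^ 2 + (Y (some k₀)) ^ 2 + S ^ 2)) := by gcongr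
  have h5 : g k₀ * t * 3 * S ^ 2 ≤ 1 * S ^ 2 := by
    apply mul_le_mul_of_nonneg_right _ (by positivity)
    linarith
  nlinarith

end Pool.Agent.N201.MC
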