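import Pool.Agent.N201.MC.Defs
import Pool.Agent.N201.MC.A
import Pool.Agent.N201.MC.B

set_option autoImplicit false
set_option linter.unusedSectionVars false

/-! # The event that the colour `k` does not occur -/

namespace Pool.Agent.N201.MC

open Finset Pool.Agent.H256R2.SC

variable {n : ℕ} {κ : Type} [Fintype κ] [DecidableEq κ]

theorem psi_er (g : Fin n → κ → ℝ) (k : κ) (x : Col n κ) (hx : ∀ i, x i ≠ some k) (D : Col n κ) :
    psic g D x = (∏ i ∈ fib D k, (-(g i k))) * psic g (er k D) x := by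
  unfold psic fib er
  rw [Finset.prod_filter, ← Finset.prod_mul_distrib]
  refine Finset.prod_congr rfl fun i _ => ?_
  by_cases h : D i = some k
  · rw [if_pos h, if_pos h, h]
    simp only [psic1]
    rw [if_neg (hx i)]
    ring
  · rw [if_neg h, if_neg h, one_mul]

theorem VV_red (g : Fin n → κ → ℝ) (y : Col n κ → ℝ) (k : κ) (x : Col n κ)
    (hx : ∀ i, x i ≠ some k) : VVc g y x = VVc g (redc g y k) x := by
  unfold VVc redc
  have h1 : ∀ D' : Col n κ,
      (∑ D with er k D = D', y D * ∏ i ∈ fib D k, (-(g i k))) * psic g D' x =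
      ∑ D with er k D = D', y D * psic g D x := by
    intro D'
    rw [Finset.sum_mul]
    refine Finset.sum_congr rfl fun D hD => ?_
    rw [Finset.mem_filter] at hD
    rw [psi_er g k x hx D, hD.2]
    ring
  simp_rw [h1]
  rw [Finset.sum_fiberwise]

theorem rough_bound_of (g : Fin n → κ → ℝ) (hw : ∀ i (c : Option κ), 0 ≤ wtc (g i) c)
    (hT : ∀ y : Col n κ → ℝ, EEc g (fun x => (∏ i : Fin n, (fun _ _ => (1 : ℝ)) i (x i)) *
      (VVc g y x) ^ 2) ≤ ∑ D, (∏ i, nuc1 (g i) (D i)) * (y D) ^ 2)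
    (y : Col n κ → ℝ) (k : κ) :
    EEc g (fun x => (if ∀ i, x i ≠ some k then 1 else 0) * (VVc g y x) ^ 2) ≤
      ∑ D, nuc g D * (redc g y k D) ^ 2 := by
  refine le_trans ?_ (hT (redc g y k))
  unfold EEc
  refine Finset.sum_le_sum fun x _ => ?_
  refine mul_le_mul_of_nonneg_left ?_ (Finset.prod_nonneg fun i _ => hw i (x i))
  beta_reduce
  by_cases hx : ∀ i, x i ≠ some k
  · rw [if_pos hx, VV_red g y k x hx]
    simp
  · rw [if_neg hx, zero_mul]
    simp only [Finset.prod_const_one, one_mul]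
    positivity

theorem rough_bound (g : Fin n → κ → ℝ) (hg : ∀ i k, 0 ≤ g i k)
    (hw : ∀ i (c : Option κ), 0 ≤ wtc (g i) c) (y : Col n κ → ℝ) (k : κ) :
    EEc g (fun x => (if ∀ i, x i ≠ some k then 1 else 0) * (VVc g y x) ^ 2) ≤
      ∑ D, nuc g D * (redc g y k D) ^ 2 := by
  refine rough_bound_of g hw (fun y' => ?_) y k
  refine tensor_upper g (fun _ _ => 1) (fun i c => nuc1 (g i) c) hw (fun _ _ => zero_le_one) ?_ ?_ y'
  · intro i c
    cases c
    · simp [nuc1]
    · simpa [nuc1] using hg i _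
  · intro i Y
    simpa using local_upper (g i) Y

end Pool.Agent.N201.MC
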