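import Pool.Agent.N201.MC.Defs
import Pool.Agent.H256R2.SC.F

set_option autoImplicit false

/-! # The weighted sum (port of `H256R2.SC.F` to colour dependent densities) -/

namespace Pool.Agent.N201.MC

open Finset Pool.Agent.H256R2.SC

variable {n : ℕ} {κ : Type} [Fintype κ] [DecidableEq κ]

theorem yyc_sq_le {h : κ → Finset (Fin n) → ℝ} (h0 : ∀ k s, 0 ≤ h k s) (h1 : ∀ k s, h k s ≤ 1)
    (k : κ) (D : Col n κ) : (yyc h D) ^ 2 ≤ (yyc h (er k D)) ^ 2 := by
  unfold yyc
  rw [← prod_pow, ← prod_pow]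
  apply prod_le_prod
  · intro l _
    positivity
  · intro l _
    by_cases hl : l = k
    · subst hl
      rw [TaskF.fib_er_self]
      simpa [al] using TaskF.al_sq_le (h0 l) (h1 l) (fib D l)
    · rw [TaskF.fib_er_ne hl]

theorem weighted_sum {p : Fin n → ℝ} {g : Fin n → κ → ℝ} {h : κ → Finset (Fin n) → ℝ} {z K : ℝ}
    (H : ∀ k, Hypc p (fun i => g i k) (h k) z K)
    (t : ℝ) (ht : 0 ≤ t) (k₀ : κ) :
    ∑ D : Col n κ, (∏ i, betc (g i) t k₀ (D i)) * (yyc h D) ^ 2 ≤
      Real.exp ((2 + 6 * t) * ∑ i, g i k₀) * Zsc g h := by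
  have g0 : ∀ i k, 0 ≤ g i k := fun i k => (H k).g0 i
  set P : ℝ := ∏ i, (1 + 3 * t * g i k₀) with hP
  have hP0 : 0 ≤ P := prod_nonneg fun i _ => by have := g0 i k₀; positivity
  let W : Finset (Fin n) → ℝ := fun s => ∏ i ∈ s, ((1 + 3 * t) * g i k₀)
  have hW0 : ∀ s, 0 ≤ W s := fun s => prod_nonneg fun i _ => by have := g0 i k₀; positivity
  let F : Col n κ → ℝ := fun D => (yyc h D) ^ 2 * nuc g D
  have hnu0 : ∀ D : Col n κ, 0 ≤ nuc g D := fun D => nuc_nonneg g0 D
  have hF0 : ∀ D, 0 ≤ F D := fun D => mul_nonneg (sq_nonneg _) (hnu0 D)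
  -- termwise bound
  have hterm : ∀ D : Col n κ, (∏ i, betc (g i) t k₀ (D i)) * (yyc h D) ^ 2 ≤
      P * (F (er k₀ D) * W (fib D k₀)) := by
    intro D
    have hb : ∏ i, betc (g i) t k₀ (D i) ≤ P * (nuc g (er k₀ D) * W (fib D k₀)) := by
      have hWW : W (fib D k₀) = ∏ i, (if D i = some k₀ then (1 + 3 * t) * g i k₀ else 1) := by
        simp only [W, fib]
        rw [prod_filter]
      rw [hWW, hP]
      unfold nuc
      rw [← prod_mul_distrib, ← prod_mul_distrib]
      apply prod_le_prod
      · intro i _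
        have := g0 i
        unfold betc
        split
        · have := g0 i k₀
          positivity
        · rename_i l _
          have := g0 i l
          split <;> positivity
      · intro i _
        have hg := g0 i k₀
        have h3 : 0 ≤ 3 * t * g i k₀ := by positivity
        cases hD : D i with
        | none => simp [betc, er, hD, nuc1]
        | some l =>
          by_cases hl : l = k₀
          · subst hl
            simp only [betc, if_true, er, hD, nuc1]
            have h4 : 0 ≤ (1 + 3 * t) * g i l := by positivity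
            nlinarith
          · have hl' : ¬ (some l = some k₀) := fun e => hl (Option.some.inj e)
            simp only [betc, if_neg hl, er, hD, if_neg hl', nuc1]
            have h5 := g0 i l
            nlinarith [mul_nonneg h3 h5]
    have hbn : 0 ≤ P * (nuc g (er k₀ D) * W (fib D k₀)) :=
      mul_nonneg hP0 (mul_nonneg (hnu0 _) (hW0 _))
    calc (∏ i, betc (g i) t k₀ (D i)) * (yyc h D) ^ 2
        ≤ (P * (nuc g (er k₀ D) * W (fib D k₀))) * (yyc h (er k₀ D)) ^ 2 :=
          mul_le_mul hb (yyc_sq_le (fun k => (H k).h0) (fun k => (H k).h1) k₀ D) (sq_nonneg _) hbn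
      _ = P * (F (er k₀ D) * W (fib D k₀)) := by simp only [F]; ring
  -- sum
  have hsum : ∑ D : Col n κ, F (er k₀ D) * W (fib D k₀) ≤ (∑ D : Col n κ, F D) * ∑ s, W s := by
    rw [sum_mul_sum, ← sum_product']
    have e : ∑ D : Col n κ, F (er k₀ D) * W (fib D k₀) =
        ∑ x ∈ univ.image (fun D : Col n κ => (er k₀ D, fib D k₀)), F x.1 * W x.2 := by
      rw [sum_image]
      intro a _ b _ hab
      exact TaskF.inj k₀ hab
    rw [e]
    apply sum_le_sum_of_subset_of_nonneg
    · intro x _
      simp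
    · intro x _ _
      exact mul_nonneg (hF0 _) (hW0 _)
  have hWs : ∑ s, W s = ∏ i, (1 + (1 + 3 * t) * g i k₀) := by
    rw [prod_one_add]
    simp [W]
  have e1 : P ≤ Real.exp (3 * t * ∑ i, g i k₀) := by
    rw [mul_sum, Real.exp_sum]
    apply prod_le_prod
    · intro i _
      have := g0 i k₀
      positivity
    · intro i _
      have := Real.add_one_le_exp (3 * t * g i k₀)
      linarith
  have e2 : ∏ i, (1 + (1 + 3 * t) * g i k₀) ≤ Real.exp ((1 + 3 * t) * ∑ i, g i k₀) := by
    rw [mul_sum, Real.exp_sum]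
    apply prod_le_prod
    · intro i _
      have := g0 i k₀
      positivity
    · intro i _
      have := Real.add_one_le_exp ((1 + 3 * t) * g i k₀)
      linarith
  have hZ0 : 0 ≤ Zsc g h := sum_nonneg fun D _ => hF0 D
  have hG0 : 0 ≤ ∑ i, g i k₀ := sum_nonneg fun i _ => g0 i k₀
  calc ∑ D : Col n κ, (∏ i, betc (g i) t k₀ (D i)) * (yyc h D) ^ 2
      ≤ ∑ D : Col n κ, P * (F (er k₀ D) * W (fib D k₀)) := sum_le_sum fun D _ => hterm D
    _ = P * ∑ D : Col n κ, F (er k₀ D) * W (fib D k₀) := by rw [mul_sum]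
    _ ≤ P * (Zsc g h * ∏ i, (1 + (1 + 3 * t) * g i k₀)) := by
        rw [← hWs]
        exact mul_le_mul_of_nonneg_left hsum hP0
    _ ≤ Real.exp (3 * t * ∑ i, g i k₀) * (Zsc g h * Real.exp ((1 + 3 * t) * ∑ i, g i k₀)) := by
        apply mul_le_mul e1 _ _ (Real.exp_pos _).le
        · exact mul_le_mul_of_nonneg_left e2 hZ0
        · apply mul_nonneg hZ0
          refine prod_nonneg fun i _ => ?_
          have := g0 i k₀
          positivity
    _ = Real.exp ((1 + 6 * t) * ∑ i, g i k₀) * Zsc g h := by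
        have : Real.exp ((1 + 6 * t) * ∑ i, g i k₀) =
            Real.exp (3 * t * ∑ i, g i k₀) * Real.exp ((1 + 3 * t) * ∑ i, g i k₀) := by
          rw [← Real.exp_add]
          ring_nf
        rw [this]
        ring
    _ ≤ Real.exp ((2 + 6 * t) * ∑ i, g i k₀) * Zsc g h := by
        apply mul_le_mul_of_nonneg_right _ hZ0
        apply Real.exp_le_exp.mpr
        nlinarith

end Pool.Agent.N201.MC
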