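import Pool.Agent.N201.MC.Defs
import Pool.Agent.H256R2.SC.S

set_option autoImplicit false

/-! # The profile `h` (average over doubly exponential scales), port of `H256R2.SC.S` (helper113)
to nonnegative densities -/

namespace Pool.Agent.N201.MC

open Finset Pool.Agent.H256R2.SC

variable {n : ℕ}

theorem exists_h (p g : Fin n → ℝ) (hp : ∀ i, 1 < p i) (hg : ∀ i, 0 ≤ g i) (J : ℕ) (hJ : 1 ≤ J)
    (z₀ lam : ℝ) (hz₀ : 1 < z₀) (hlam : 0 < lam)
    (hA : ∀ j < J, 1 ≤ Asum p g (z₀ ^ (2 ^ j)) ∧
      lam * (2 ^ j * Real.log z₀) ≤ Asum p g (z₀ ^ (2 ^ j))) :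
    ∃ h, Hypc p g h (z₀ ^ (2 ^ (J - 1))) (4 / (lam * J)) := by
  have hJ0 : (0 : ℝ) < J := by exact_mod_cast hJ
  have hlog : 0 < Real.log z₀ := Real.log_pos hz₀
  set A : ℕ → ℝ := fun j => Asum p g (z₀ ^ (2 ^ j)) with hAdef
  have hA1 : ∀ j < J, 1 ≤ A j := fun j hj => (hA j hj).1
  have hA0 : ∀ j < J, 0 < A j := fun j hj => lt_of_lt_of_le one_pos (hA1 j hj)
  have hAl : ∀ j < J, lam * (2 ^ j * Real.log z₀) ≤ A j := fun j hj => (hA j hj).2
  have ht0 : ∀ j < J, ∀ s, 0 ≤ hterm p g z₀ j s := by
    intro j hj s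
    unfold hterm
    split_ifs
    · exact div_nonneg zero_le_one (hA0 j hj).le
    · exact le_rfl
  have ht1 : ∀ j < J, ∀ s, hterm p g z₀ j s ≤ 1 := by
    intro j hj s
    unfold hterm
    split_ifs
    · rw [div_le_one (hA0 j hj)]; exact hA1 j hj
    · exact zero_le_one
  have hPpos : ∀ s : Finset (Fin n), 0 < ∏ i ∈ s, p i :=
    fun s => Finset.prod_pos (fun i _ => lt_trans one_pos (hp i))
  have hGpos : ∀ s : Finset (Fin n), 0 ≤ ∏ i ∈ s, g i :=
    fun s => Finset.prod_nonneg (fun i _ => hg i)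
  have hP1 : ∀ s : Finset (Fin n), 1 ≤ ∏ i ∈ s, p i := by
    intro s
    calc (1 : ℝ) = ∏ _i ∈ s, (1 : ℝ) := by simp
      _ ≤ ∏ i ∈ s, p i := Finset.prod_le_prod (fun _ _ => zero_le_one) (fun i _ => (hp i).le)
  have hPmono : ∀ s t : Finset (Fin n), s ⊆ t → ∏ i ∈ s, p i ≤ ∏ i ∈ t, p i := by
    intro s t hst
    rw [← Finset.prod_sdiff hst]
    calc ∏ i ∈ s, p i = 1 * ∏ i ∈ s, p i := (one_mul _).symm
      _ ≤ (∏ i ∈ t \ s, p i) * ∏ i ∈ s, p i :=
        mul_le_mul_of_nonneg_right (hP1 _) (hPpos s).le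
  let h : Finset (Fin n) → ℝ := fun s =>
    if s = ∅ then 0 else (1 / (J : ℝ)) * ∑ j ∈ range J, hterm p g z₀ j s
  have hne : ∀ s : Finset (Fin n), s.Nonempty →
      h s = (1 / (J : ℝ)) * ∑ j ∈ range J, hterm p g z₀ j s := by
    intro s hs
    simp only [h, if_neg hs.ne_empty]
  refine ⟨h, ?_⟩
  refine ⟨hp, hg, ?_, ?_, ?_, ?_, ?_, ?_, ?_, ?_⟩
  · exact one_lt_pow₀ hz₀ (by positivity)
  · positivity
  · intro s
    simp only [h]
    split_ifs
    · exact le_rfl
    · exact mul_nonneg (by positivity)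
        (Finset.sum_nonneg (fun j hj => ht0 j (mem_range.1 hj) s))
  · intro s
    simp only [h]
    split_ifs
    · exact zero_le_one
    · calc (1 / (J : ℝ)) * ∑ j ∈ range J, hterm p g z₀ j s
          ≤ (1 / (J : ℝ)) * ∑ _j ∈ range J, (1 : ℝ) := by
            refine mul_le_mul_of_nonneg_left ?_ (by positivity)
            exact Finset.sum_le_sum (fun j hj => ht1 j (mem_range.1 hj) s)
        _ = 1 := by
            simp only [sum_const, card_range, nsmul_eq_mul, mul_one]
            field_simp
  · intro s t hs hst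
    rw [hne s hs, hne t (hs.mono hst)]
    refine mul_le_mul_of_nonneg_left ?_ (by positivity)
    refine Finset.sum_le_sum (fun j hj => ?_)
    unfold hterm
    by_cases h1 : ∏ i ∈ t, p i ≤ z₀ ^ (2 ^ j)
    · rw [if_pos h1, if_pos ((hPmono s t hst).trans h1)]
    · rw [if_neg h1]
      exact ht0 j (mem_range.1 hj) s
  · intro s hs
    by_cases hse : s = ∅
    · simp [h, hse] at hs
    · have hs' := hne s (nonempty_iff_ne_empty.2 hse)
      rw [hs'] at hs
      have h2 : ∑ j ∈ range J, hterm p g z₀ j s ≠ 0 := right_ne_zero_of_mul hs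
      obtain ⟨j, hj, hj0⟩ := Finset.exists_ne_zero_of_sum_ne_zero h2
      have h3 : ∏ i ∈ s, p i ≤ z₀ ^ (2 ^ j) := by
        by_contra hcon
        apply hj0
        unfold hterm
        rw [if_neg hcon]
      refine h3.trans (pow_le_pow_right₀ hz₀.le ?_)
      exact Nat.pow_le_pow_right (by norm_num) (by have := mem_range.1 hj; omega)
  · have h1 : ∑ s : Finset (Fin n) with s.Nonempty, h s * ∏ i ∈ s, g i =
        ∑ s : Finset (Fin n) with s.Nonempty,
          (1 / (J : ℝ)) * ∑ j ∈ range J, hterm p g z₀ j s * ∏ i ∈ s, g i := by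
      refine Finset.sum_congr rfl (fun s hs => ?_)
      rw [hne s (mem_filter.1 hs).2, mul_assoc, Finset.sum_mul]
    rw [h1, ← Finset.mul_sum, Finset.sum_comm]
    have h2 : ∀ j ∈ range J,
        ∑ s : Finset (Fin n) with s.Nonempty, hterm p g z₀ j s * ∏ i ∈ s, g i = 1 := by
      intro j hj
      have hj' := mem_range.1 hj
      have h3 : ∑ s : Finset (Fin n) with s.Nonempty, hterm p g z₀ j s * ∏ i ∈ s, g i
          = (1 / A j) * ∑ s : Finset (Fin n) with s.Nonempty ∧ ∏ i ∈ s, p i ≤ z₀ ^ (2 ^ j),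
              ∏ i ∈ s, g i := by
        rw [sum_two_filters, Finset.mul_sum]
        refine Finset.sum_congr rfl (fun s _ => ?_)
        unfold hterm
        split_ifs <;> simp [A]
      rw [h3]
      change (1 / A j) * A j = 1
      rw [one_div, inv_mul_cancel₀ (hA0 j hj').ne']
    rw [Finset.sum_congr rfl h2]
    simp only [sum_const, card_range, nsmul_eq_mul, mul_one]
    field_simp
  · -- the cost
    have hL0 : ∀ s : Finset (Fin n), 0 ≤ Real.log (∏ i ∈ s, p i) :=
      fun s => Real.log_nonneg (hP1 s)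
    have h1 : ∑ s : Finset (Fin n) with s.Nonempty,
        (h s) ^ 2 * (∏ i ∈ s, g i) * Real.log (∏ i ∈ s, p i) =
        (1 / (J : ℝ)) ^ 2 * ∑ i ∈ range J, ∑ j ∈ range J,
          ∑ s : Finset (Fin n) with s.Nonempty, hterm p g z₀ i s * hterm p g z₀ j s *
            ((∏ i ∈ s, g i) * Real.log (∏ i ∈ s, p i)) := by
      have h2 : ∀ s ∈ (univ.filter (fun s : Finset (Fin n) => s.Nonempty)),
          (h s) ^ 2 * (∏ i ∈ s, g i) * Real.log (∏ i ∈ s, p i) =
          (1 / (J : ℝ)) ^ 2 * ∑ i ∈ range J, ∑ j ∈ range J,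
            hterm p g z₀ i s * hterm p g z₀ j s *
            ((∏ i ∈ s, g i) * Real.log (∏ i ∈ s, p i)) := by
        intro s hs
        rw [hne s (mem_filter.1 hs).2, mul_pow, pow_two (∑ j ∈ range J, hterm p g z₀ j s),
          Finset.sum_mul_sum]
        simp only [Finset.mul_sum, Finset.sum_mul]
        refine Finset.sum_congr rfl (fun i _ => Finset.sum_congr rfl (fun j _ => ?_))
        ring
      rw [Finset.sum_congr rfl h2, ← Finset.mul_sum]
      congr 1
      rw [Finset.sum_comm]
      refine Finset.sum_congr rfl (fun i _ => ?_)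
      rw [Finset.sum_comm]
    rw [h1]
    -- bound of one term
    have hle : ∀ i < J, ∀ j < J, i ≤ j →
        ∑ s : Finset (Fin n) with s.Nonempty, hterm p g z₀ i s * hterm p g z₀ j s *
            ((∏ i ∈ s, g i) * Real.log (∏ i ∈ s, p i)) ≤ (1 / lam) * (2 ^ i / 2 ^ j) := by
      intro i hi j hj hij
      have hlz : 0 ≤ 2 ^ i * Real.log z₀ := by positivity
      calc ∑ s : Finset (Fin n) with s.Nonempty, hterm p g z₀ i s * hterm p g z₀ j s *
            ((∏ i ∈ s, g i) * Real.log (∏ i ∈ s, p i))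
          ≤ ∑ s : Finset (Fin n) with s.Nonempty,
              (if ∏ i ∈ s, p i ≤ z₀ ^ (2 ^ i) then
                (1 / A i) * (1 / A j) * (2 ^ i * Real.log z₀) * ∏ i ∈ s, g i else 0) := by
            refine Finset.sum_le_sum (fun s _ => ?_)
            by_cases hc : ∏ i ∈ s, p i ≤ z₀ ^ (2 ^ i)
            · rw [if_pos hc]
              have e1 : hterm p g z₀ i s = 1 / A i := by
                unfold hterm; rw [if_pos hc]
              have e2 : hterm p g z₀ j s ≤ 1 / A j := by
                unfold hterm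
                split_ifs
                · exact le_rfl
                · exact div_nonneg zero_le_one (hA0 j hj).le
              have e3 : Real.log (∏ i ∈ s, p i) ≤ 2 ^ i * Real.log z₀ := by
                have := Real.log_le_log (hPpos s) hc
                rwa [Real.log_pow, Nat.cast_pow, Nat.cast_ofNat] at this
              rw [e1]
              have e4 : (0 : ℝ) ≤ 1 / A i := div_nonneg zero_le_one (hA0 i hi).le
              calc 1 / A i * hterm p g z₀ j s * ((∏ i ∈ s, g i) * Real.log (∏ i ∈ s, p i))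
                  ≤ 1 / A i * (1 / A j) * ((∏ i ∈ s, g i) * (2 ^ i * Real.log z₀)) := by
                    refine mul_le_mul (mul_le_mul_of_nonneg_left e2 e4)
                      (mul_le_mul_of_nonneg_left e3 (hGpos s))
                      (mul_nonneg (hGpos s) (hL0 s)) ?_
                    exact mul_nonneg e4 (div_nonneg zero_le_one (hA0 j hj).le)
                _ = _ := by ring
            · rw [if_neg hc]
              have e1 : hterm p g z₀ i s = 0 := by
                unfold hterm; rw [if_neg hc]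
              rw [e1]; simp
        _ = (1 / A i) * (1 / A j) * (2 ^ i * Real.log z₀) * A i := by
            change _ = _ * Asum p g (z₀ ^ (2 ^ i))
            unfold Asum
            rw [sum_two_filters, Finset.mul_sum]
            refine Finset.sum_congr rfl (fun s _ => ?_)
            split_ifs <;> simp
        _ = (2 ^ i * Real.log z₀) / A j := by
            have := (hA0 i hi).ne'
            have := (hA0 j hj).ne'
            field_simp
        _ ≤ (2 ^ i * Real.log z₀) / (lam * (2 ^ j * Real.log z₀)) := by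
            exact div_le_div_of_nonneg_left hlz (by positivity) (hAl j hj)
        _ = (1 / lam) * (2 ^ i / 2 ^ j) := by
            field_simp
    have hT : ∀ i < J, ∀ j < J,
        ∑ s : Finset (Fin n) with s.Nonempty, hterm p g z₀ i s * hterm p g z₀ j s *
            ((∏ i ∈ s, g i) * Real.log (∏ i ∈ s, p i)) ≤
          (1 / lam) * ((if i ≤ j then (2 : ℝ) ^ i / 2 ^ j else 0) +
            (if j ≤ i then (2 : ℝ) ^ j / 2 ^ i else 0)) := by
      intro i hi j hj
      rcases le_total i j with hij | hij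
      · refine (hle i hi j hj hij).trans ?_
        rw [if_pos hij]
        refine mul_le_mul_of_nonneg_left ?_ (by positivity)
        have : (0 : ℝ) ≤ if j ≤ i then (2 : ℝ) ^ j / 2 ^ i else 0 := by
          split_ifs <;> positivity
        linarith
      · have h5 := hle j hj i hi hij
        have h6 : ∑ s : Finset (Fin n) with s.Nonempty, hterm p g z₀ i s * hterm p g z₀ j s *
            ((∏ i ∈ s, g i) * Real.log (∏ i ∈ s, p i)) =
            ∑ s : Finset (Fin n) with s.Nonempty, hterm p g z₀ j s * hterm p g z₀ i s *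
            ((∏ i ∈ s, g i) * Real.log (∏ i ∈ s, p i)) := by
          refine Finset.sum_congr rfl (fun s _ => ?_)
          ring
        rw [h6]
        refine h5.trans ?_
        rw [if_pos hij]
        refine mul_le_mul_of_nonneg_left ?_ (by positivity)
        have : (0 : ℝ) ≤ if i ≤ j then (2 : ℝ) ^ i / 2 ^ j else 0 := by
          split_ifs <;> positivity
        linarith
    have hsum : ∑ i ∈ range J, ∑ j ∈ range J,
          ∑ s : Finset (Fin n) with s.Nonempty, hterm p g z₀ i s * hterm p g z₀ j s *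
            ((∏ i ∈ s, g i) * Real.log (∏ i ∈ s, p i)) ≤ (1 / lam) * (4 * J) := by
      calc _ ≤ ∑ i ∈ range J, ∑ j ∈ range J,
          (1 / lam) * ((if i ≤ j then (2 : ℝ) ^ i / 2 ^ j else 0) +
            (if j ≤ i then (2 : ℝ) ^ j / 2 ^ i else 0)) :=
            Finset.sum_le_sum (fun i hi => Finset.sum_le_sum (fun j hj =>
              hT i (mem_range.1 hi) j (mem_range.1 hj)))
        _ = (1 / lam) * (∑ i ∈ range J, ∑ j ∈ range J,
              (if i ≤ j then (2 : ℝ) ^ i / 2 ^ j else 0) +
            ∑ i ∈ range J, ∑ j ∈ range J, (if j ≤ i then (2 : ℝ) ^ j / 2 ^ i else 0)) := by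
            simp only [← Finset.mul_sum, Finset.sum_add_distrib]
        _ ≤ (1 / lam) * (2 * J + 2 * J) := by
            refine mul_le_mul_of_nonneg_left (add_le_add ?_ ?_) (by positivity)
            · rw [Finset.sum_comm]
              calc ∑ j ∈ range J, ∑ i ∈ range J, (if i ≤ j then (2 : ℝ) ^ i / 2 ^ j else 0)
                  ≤ ∑ _j ∈ range J, (2 : ℝ) := Finset.sum_le_sum (fun j _ => sum_half_le J j)
                _ = 2 * J := by simp [mul_comm]
            · calc ∑ i ∈ range J, ∑ j ∈ range J, (if j ≤ i then (2 : ℝ) ^ j / 2 ^ i else 0)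
                  ≤ ∑ _i ∈ range J, (2 : ℝ) := Finset.sum_le_sum (fun i _ => sum_half_le J i)
                _ = 2 * J := by simp [mul_comm]
        _ = (1 / lam) * (4 * J) := by ring
    calc (1 / (J : ℝ)) ^ 2 * ∑ i ∈ range J, ∑ j ∈ range J,
          ∑ s : Finset (Fin n) with s.Nonempty, hterm p g z₀ i s * hterm p g z₀ j s *
            ((∏ i ∈ s, g i) * Real.log (∏ i ∈ s, p i))
        ≤ (1 / (J : ℝ)) ^ 2 * ((1 / lam) * (4 * J)) :=
          mul_le_mul_of_nonneg_left hsum (by positivity)
      _ = 4 / (lam * J) := by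
          field_simp

end Pool.Agent.N201.MC
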