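import Pool.Agent.H256R2.SC.V2
import Pool.Agent.N201.MC.J
import Pool.Agent.N201.MC.S
import Pool.Agent.H474R2.PG.Cover

set_option autoImplicit false
set_option linter.unusedSectionVars false

/-! # The covering theorem for several root counting functions

Port of `Pool.Agent.H474R2.PG.Cover` (helper474): the number `r (cl k) p` of residue classes modulo `p`
which kill the colour `k` now depends on the class `cl k` of the colour. -/

namespace Pool.Agent.N201.MC

open Finset Filter Pool.Agent.H256R2.SC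
open Pool.Agent.H474R2.PG (PR Sg PS Asum_enum' colh colh_eq TT TT_mem TT_prod sT sT_eq event_iff' scales' ev_facts' Sg_upper)

open scoped Classical

private lemma vaux1 (L d : ℝ) (hL : 0 < L) : (d / L) ^ 2 = d ^ 2 / L ^ 2 := by field_simp
private lemma vaux2 (L c : ℝ) (hL : 0 < L) : L * (c / L ^ 2) = c / L := by field_simp
private lemma vaux3 (L : ℝ) (hL : 0 < L) : (L / 8) * (1 / L) = 1 / 8 := by field_simp

private lemma auxd (d L : ℝ) (h : 8 * (d ^ 2 + 1) ≤ L) : 8 * d ≤ L := by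
  nlinarith [sq_nonneg (d - 1)]

private lemma auxdL (d L : ℝ) (hL : 1000 ≤ L) (h : 8 * d ≤ L) : d * (1 / L ^ 2) ≤ 1 / 9 := by
  rw [mul_one_div, div_le_div_iff₀ (by positivity) (by norm_num)]
  nlinarith

private lemma part_tail (u K L l d D c c₂ P₁ z : ℝ) (hu0 : 0 ≤ u) (hLpos : 0 < L) (hl0 : 0 < l)
    (hD : 0 < D) (hD10 : 10 ≤ D) (hlD : l ≤ D) (hLexp : L = Real.exp l)
    (hc0 : 0 < c) (hc₂ : 0 < c₂)
    (hcc : c ≤ c₂ / 6400) (hP₁0 : 0 < P₁) (huP : u ≤ c * L * l / P₁) (hK8 : K ≤ 8 * P₁ / (c₂ * l))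
    (hK0 : 0 ≤ K) (huL8 : u ≤ L / 8) (hL8 : 8 ≤ L) (hzpos : 0 < z) (hlzpos : 0 < Real.log z)
    (hlz1 : Real.log z ≤ L / (1000 * D)) (hlz2 : L / (2000 * D) ≤ Real.log z)
    (f7 : 8 * (d ^ 2 + 1) ≤ L) :
    (u + 1) * ((d / L) ^ 2 + Real.exp (2 * u * K / Real.log z -
          Real.log (Real.exp (L / 40) / z) / Real.log z)) ≤ 1 / 8 := by
  have h1 : 2 * u * K / Real.log z ≤ 5 * D := by
    rw [div_le_iff₀ hlzpos]
    have e1 : 2 * u * K ≤ 2 * (c * L * l / P₁) * (8 * P₁ / (c₂ * l)) := by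
      apply mul_le_mul (by linarith) hK8 hK0 (by positivity)
    have e2 : 2 * (c * L * l / P₁) * (8 * P₁ / (c₂ * l)) = 16 * L * (c / c₂) := by
      field_simp
      ring
    have e3 : 16 * L * (c / c₂) ≤ L / 400 := by
      have : c / c₂ ≤ 1 / 6400 := by
        rw [div_le_iff₀ hc₂]
        linarith
      nlinarith
    have e4 : L / 400 = 5 * D * (L / (2000 * D)) := by field_simp; norm_num
    have e5 : 5 * D * (L / (2000 * D)) ≤ 5 * D * Real.log z :=
      mul_le_mul_of_nonneg_left hlz2 (by positivity)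
    linarith
  have h2 : 25 * D - 1 ≤ Real.log (Real.exp (L / 40) / z) / Real.log z := by
    rw [Real.log_div (Real.exp_pos _).ne' hzpos.ne', Real.log_exp, sub_div, div_self hlzpos.ne']
    have : 25 * D ≤ L / 40 / Real.log z := by
      rw [le_div_iff₀ hlzpos]
      calc 25 * D * Real.log z ≤ 25 * D * (L / (1000 * D)) :=
            mul_le_mul_of_nonneg_left hlz1 (by positivity)
        _ = L / 40 := by field_simp; norm_num
    linarith
  have h3 : Real.exp (2 * u * K / Real.log z - Real.log (Real.exp (L / 40) / z) / Real.log z) ≤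
      1 / L ^ 2 := by
    have e1 : (1:ℝ) / L ^ 2 = Real.exp (-(2 * l)) := by
      rw [Real.exp_neg, hLexp, ← Real.exp_nat_mul]
      push_cast
      rw [one_div]
    rw [e1]
    apply Real.exp_le_exp.mpr
    linarith
  have h4 : (u + 1) * ((d / L) ^ 2 + Real.exp (2 * u * K / Real.log z -
      Real.log (Real.exp (L / 40) / z) / Real.log z)) ≤ L * ((d ^ 2 + 1) / L ^ 2) := by
    apply mul_le_mul (by linarith) _ (by positivity) hLpos.le
    rw [vaux1 L d hLpos]
    have e : (d ^ 2 + 1) / L ^ 2 = d ^ 2 / L ^ 2 + 1 / L ^ 2 := by ring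
    rw [e]
    linarith
  have h5 : L * ((d ^ 2 + 1) / L ^ 2) = (d ^ 2 + 1) / L := vaux2 L _ hLpos
  have h6 : (d ^ 2 + 1) / L ≤ 1 / 8 := by
    rw [div_le_div_iff₀ hLpos (by norm_num)]; linarith
  linarith

private lemma auxsq (L y : ℝ) (hL : 1000 ≤ L) (h : L ^ 2 ≤ y) : L ≤ y := by nlinarith

private lemma auxhu (c L l d P₁ eC A : ℝ) (hL : 0 < L) (hl : 0 < l) (hd : 0 < d) (hP : 0 < P₁)
    (heC : 0 < eC) (hA : 1 ≤ A) (hc8 : c ≤ eC / (8 * d)) (hP₁lo : eC * (A * l) ≤ P₁) :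
    c * L * l / P₁ ≤ L / (8 * d) := by
  rw [div_le_div_iff₀ hP (by positivity)]
  have h1 : c * L * l * (8 * d) ≤ eC / (8 * d) * L * l * (8 * d) := by
    have h0 : 0 ≤ L * l * (8 * d) := by positivity
    have := mul_le_mul_of_nonneg_right hc8 h0
    calc c * L * l * (8 * d) = c * (L * l * (8 * d)) := by ring
      _ ≤ eC / (8 * d) * (L * l * (8 * d)) := this
      _ = _ := by ring
  have h2 : eC / (8 * d) * L * l * (8 * d) = L * (eC * l) := by
    field_simp
  have h3 : eC * l ≤ P₁ := by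
    refine le_trans ?_ hP₁lo
    apply mul_le_mul_of_nonneg_left _ heC.le
    exact le_mul_of_one_le_left hl.le hA
  calc c * L * l * (8 * d) ≤ L * (eC * l) := by rw [← h2]; exact h1
    _ ≤ L * P₁ := mul_le_mul_of_nonneg_left h3 hL.le

private lemma part_mom (u L l d CM : ℝ) (J : ℕ) (G : ℝ) (hu0 : 0 ≤ u) (hLpos : 0 < L)
    (hLexp : L = Real.exp l) (hdl : 0 < d * l) (hldl : l ≤ d * l) (hdR : 1 ≤ d)
    (f2 : 20 * CM ≤ l) (hJ1 : 22 * (d * l) ≤ J) (hG : G ≤ d * (l + CM)) (huL8 : u ≤ L / 8) :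
    u * (1 / (3:ℝ)) ^ J * Real.exp ((2 + 6 * 3) * G) ≤ 1 / 8 := by
  have h1 : (1 / (3:ℝ)) ^ J ≤ Real.exp (-(22 * (d * l))) := by
    have e1 : (1 / (3:ℝ)) = Real.exp (-(Real.log 3)) := by
      rw [Real.exp_neg, Real.exp_log (by norm_num)]; norm_num
    rw [e1, ← Real.exp_nat_mul]
    apply Real.exp_le_exp.mpr
    have e2 : (1:ℝ) ≤ Real.log 3 := by
      rw [Real.le_log_iff_exp_le (by norm_num)]
      have := Real.exp_one_lt_d9
      linarith
    have e3 : 22 * (d * l) ≤ J * Real.log 3 := by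
      have : (J:ℝ) * 1 ≤ J * Real.log 3 := mul_le_mul_of_nonneg_left e2 (Nat.cast_nonneg J)
      linarith
    linarith
  have h2 : Real.exp ((2 + 6 * 3) * G) ≤ Real.exp (21 * (d * l)) := by
    apply Real.exp_le_exp.mpr
    have : d * (20 * CM) ≤ d * l := mul_le_mul_of_nonneg_left f2 (by linarith)
    linarith
  have h3 : (1 / (3:ℝ)) ^ J * Real.exp ((2 + 6 * 3) * G) ≤ 1 / L := by
    calc (1 / (3:ℝ)) ^ J * Real.exp ((2 + 6 * 3) * G)
        ≤ Real.exp (-(22 * (d * l))) * Real.exp (21 * (d * l)) :=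
          mul_le_mul h1 h2 (Real.exp_pos _).le (Real.exp_pos _).le
      _ = Real.exp (-(d * l)) := by rw [← Real.exp_add]; congr 1; ring
      _ ≤ Real.exp (-l) := Real.exp_le_exp.mpr (by linarith)
      _ = 1 / L := by rw [Real.exp_neg, ← hLexp, one_div]
  calc u * (1 / (3:ℝ)) ^ J * Real.exp ((2 + 6 * 3) * G)
      = u * ((1 / (3:ℝ)) ^ J * Real.exp ((2 + 6 * 3) * G)) := by ring
    _ ≤ (L / 8) * (1 / L) := mul_le_mul huL8 h3 (by positivity) (by positivity)
    _ = 1 / 8 := vaux3 L hLpos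

private lemma part_fin (u L : ℝ) (n J : ℕ) (z Q Err N : ℝ) (hu0 : 0 ≤ u) (hn1 : (n:ℝ) + 1 ≤ z)
    (hzJ : z ^ J ≤ Real.exp (23 * L / 1000)) (hQ : Q = Real.exp (L / 40))
    (huL : u ≤ Real.exp (L / 100)) (f5 : 1000 ≤ L) (hErr0 : 0 ≤ Err)
    (hErr : Err ≤ Real.exp (1 / 10 * L)) (hN : Real.exp (1 / 2 * L) ≤ N) :
    Err * (9 * Q ^ 4 * (1 + u * ((n:ℝ) + 1) ^ J)) < N / 8 := by
  have hn0 : (0:ℝ) ≤ (n:ℝ) + 1 := add_nonneg (Nat.cast_nonneg n) zero_le_one
  have hnJ0 : (0:ℝ) ≤ ((n:ℝ) + 1) ^ J := pow_nonneg hn0 J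
  have h1 : ((n:ℝ) + 1) ^ J ≤ Real.exp (23 * L / 1000) :=
    (pow_le_pow_left₀ hn0 hn1 J).trans hzJ
  have h2 : u * ((n:ℝ) + 1) ^ J ≤ Real.exp (L / 100) * Real.exp (23 * L / 1000) :=
    mul_le_mul huL h1 hnJ0 (Real.exp_pos _).le
  have h3 : (1:ℝ) ≤ Real.exp (33 * L / 1000) := Real.one_le_exp (by linarith)
  have h4 : 1 + u * ((n:ℝ) + 1) ^ J ≤ 2 * Real.exp (33 * L / 1000) := by
    have : Real.exp (L / 100) * Real.exp (23 * L / 1000) = Real.exp (33 * L / 1000) := by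
      rw [← Real.exp_add]; congr 1; ring
    linarith
  have h5 : Q ^ 4 = Real.exp (L / 10) := by
    rw [hQ, ← Real.exp_nat_mul]; congr 1; push_cast; ring
  have h6 : Err * (9 * Q ^ 4 * (1 + u * ((n:ℝ) + 1) ^ J)) ≤
      Real.exp (1 / 10 * L) * (9 * Real.exp (L / 10) * (2 * Real.exp (33 * L / 1000))) := by
    rw [h5]
    have h50 : (0:ℝ) ≤ 9 * Real.exp (L / 10) :=
      mul_nonneg (by norm_num) (Real.exp_pos _).le
    have h51 : (0:ℝ) ≤ 1 + u * ((n:ℝ) + 1) ^ J := add_nonneg zero_le_one (mul_nonneg hu0 hnJ0)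
    exact mul_le_mul hErr (mul_le_mul_of_nonneg_left h4 h50) (mul_nonneg h50 h51)
      (Real.exp_pos _).le
  have h7 : Real.exp (1 / 10 * L) * (9 * Real.exp (L / 10) * (2 * Real.exp (33 * L / 1000))) =
      18 * Real.exp (233 * L / 1000) := by
    have : Real.exp (1 / 10 * L) * Real.exp (L / 10) * Real.exp (33 * L / 1000) =
        Real.exp (233 * L / 1000) := by
      rw [← Real.exp_add, ← Real.exp_add]; congr 1; ring
    calc _ = 18 * (Real.exp (1 / 10 * L) * Real.exp (L / 10) * Real.exp (33 * L / 1000)) := by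
          ring
      _ = _ := by rw [this]
  have h8 : 18 * Real.exp (233 * L / 1000) < Real.exp (1 / 2 * L) / 8 := by
    have e1 : Real.exp (1 / 2 * L) = Real.exp (233 * L / 1000) * Real.exp (267 * L / 1000) := by
      rw [← Real.exp_add]; congr 1; ring
    have e2 : (144:ℝ) < Real.exp (267 * L / 1000) := by
      have := Real.add_one_le_exp (267 * L / 1000)
      linarith
    rw [e1]
    have := Real.exp_pos (233 * L / 1000)
    nlinarith
  have h9 : Real.exp (1 / 2 * L) / 8 ≤ N / 8 := by linarith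
  linarith

lemma TT_nuc {κ : Type} [Fintype κ] [DecidableEq κ] [Nonempty κ] (PP : Finset ℕ)
    (g : ℕ → κ → ℝ) (D : Col PP.card κ) :
    ∏ p ∈ TT PP D, g p (sT PP D p) = nuc (fun i => g (emb PP i)) D := by
  unfold TT nuc
  rw [Finset.prod_map]
  have h1 : ∀ i ∈ supp D, g (emb PP i) (sT PP D (emb PP i)) = nuc1 (g (emb PP i)) (D i) := by
    intro i hi
    obtain ⟨k, hk⟩ := Option.ne_none_iff_exists'.mp (mem_supp.mp hi)
    rw [sT_eq PP D i k hk, hk]
    rfl
  rw [Finset.prod_congr rfl h1]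
  refine Finset.prod_subset (Finset.subset_univ _) fun i _ hi => ?_
  have h2 : D i = none := by
    by_contra h
    exact hi (mem_supp.mpr h)
  rw [h2]
  rfl

lemma Hypc_mono {n : ℕ} {p g : Fin n → ℝ} {h : Finset (Fin n) → ℝ} {z K K' : ℝ}
    (H : Hypc p g h z K) (hK : K ≤ K') : Hypc p g h z K' :=
  ⟨H.p1, H.g0, H.z1, H.K0.trans hK, H.h0, H.h1, H.anti, H.supp, H.sum1, H.cost.trans hK⟩

theorem covering_multi {ι : Type} [Fintype ι] (r : ι → ℕ → ℕ) (d B : ℕ) (hd : 1 ≤ d)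
    (hr : ∀ j, ∀ p : ℕ, p.Prime → B < p → r j p ≤ d) (C : ℝ)
    (hM : ∀ j, ∀ w : ℝ, 3 ≤ w → Real.log (Real.log w) - C ≤ Sg (r j) w)
    (c₂ Y₀ : ℝ) (hc₂ : 0 < c₂) (hY₀ : 3 ≤ Y₀)
    (hRL : ∀ j, ∀ y z x : ℝ, Y₀ ≤ y → y ≤ x → x ≤ z →
      c₂ * Real.log x * Real.exp (-(Sg (r j) y)) - 1 ≤
        ∑ s ∈ ((PS (r j) y z).powerset.filter
            (fun s : Finset ℕ => s.Nonempty ∧ ∏ p ∈ s, (p : ℝ) ≤ x)),
          ∏ p ∈ s, (r j p : ℝ) / (p : ℝ))
    (A : ℕ) (hA : 2 ≤ A) :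
    ∃ c : ℝ, 0 < c ∧ ∃ X₀ : ℝ, ∀ X : ℝ, X₀ ≤ X →
    ∀ (κ : Type) [Fintype κ] [DecidableEq κ] [Nonempty κ] (cl : κ → ι),
    (∀ k, (Fintype.card κ : ℝ) ≤ c * Real.log X * Real.log (Real.log X) *
      Real.exp (-(Sg (r (cl k)) ((Real.log X) ^ A)))) →
    ∀ (hit : ℕ → ℤ → κ → Prop),
    (∀ p : ℕ, p.Prime → (Real.log X) ^ A < p → (p : ℝ) ≤ X ^ (1 / 10 : ℝ) →
      ∀ a k l, hit p a k → hit p a l → k = l) →
    ∀ (𝒜 : Finset ℤ) (N Err : ℝ), X ^ (1 / 2 : ℝ) ≤ N → 0 ≤ Err → Err ≤ X ^ (1 / 10 : ℝ) →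
    (∀ (T : Finset ℕ) (s : ℕ → κ), (∏ p ∈ T, (p : ℝ)) ≤ X ^ (1 / 4 : ℝ) →
      (∀ p ∈ T, p.Prime ∧ (Real.log X) ^ A < p) →
      |((𝒜.filter (fun a => ∀ p ∈ T, hit p a (s p))).card : ℝ) -
        N * ∏ p ∈ T, (r (cl (s p)) p : ℝ) / (p : ℝ)| ≤ Err) →
    ∃ a ∈ 𝒜, ∀ k : κ, ∃ p : ℕ, p.Prime ∧ (Real.log X) ^ A < p ∧ (p : ℝ) ≤ X ^ (1 / 10 : ℝ) ∧
      hit p a k := by
  obtain ⟨CM₀, hM₀⟩ := Pool.Agent.Helper256.KM.mertens_inv
  set CM : ℝ := max CM₀ 0 with hCM
  have hCM0 : 0 ≤ CM := le_max_right _ _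
  choose C₃' hC₃' using fun j => Sg_upper (r j) d B (hr j)
  set C₃ : ℝ := ∑ j, |C₃' j| with hC₃def
  have hC₃ : ∀ j, ∀ w : ℝ, 3 ≤ w → Sg (r j) w ≤ C₃ + d * Real.log (Real.log w) := by
    intro j w hw
    have h1 := hC₃' j w hw
    have h2 : |C₃' j| ≤ C₃ :=
      Finset.single_le_sum (f := fun j => |C₃' j|) (fun i _ => abs_nonneg _) (Finset.mem_univ j)
    have h3 := le_abs_self (C₃' j)
    linarith
  have hdR : (1 : ℝ) ≤ d := by exact_mod_cast hd
  have hAR : (2 : ℝ) ≤ A := by exact_mod_cast hA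
  set C₀ : ℝ := 2 / c₂ + Real.exp C with hC₀
  have hC₀0 : 0 < C₀ := by positivity
  set c : ℝ := min (Real.exp (-C) / (8 * d)) (c₂ / 6400) with hc
  have hc0 : 0 < c := lt_min (by positivity) (by positivity)
  have hc8 : c ≤ Real.exp (-C) / (8 * d) := min_le_left _ _
  have hcc : c ≤ c₂ / 6400 := min_le_right _ _
  obtain ⟨L₀, hL₀⟩ := ev_facts' (d + 1) d CM (1000 * d * (C₀ * (Real.exp C₃ * (A : ℝ) ^ d)))
    (max Y₀ B)
  refine ⟨c, hc0, Real.exp L₀, ?_⟩
  intro X hX κ _ _ _ cl hκ' hit hres 𝒜 N Err hN hErr0 hErr hcount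
  have hX0 : 0 < X := lt_of_lt_of_le (Real.exp_pos _) hX
  set L : ℝ := Real.log X with hL
  have hXL : X = Real.exp L := (Real.exp_log hX0).symm
  have hLL : L₀ ≤ L := by
    rw [hL, ← Real.log_exp L₀]
    exact Real.log_le_log (Real.exp_pos _) hX
  obtain ⟨f1, f2, f3, f4, f5, f6, f7, f8⟩ := hL₀ L hLL
  set l : ℝ := Real.log L with hl
  have hl0 : 0 < l := by linarith
  have hLpos : 0 < L := by linarith
  have hLexp : L = Real.exp l := (Real.exp_log hLpos).symm
  have hXr : ∀ s : ℝ, X ^ s = Real.exp (s * L) := by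
    intro s
    rw [hXL, ← Real.exp_mul, mul_comm]
  set y₁ : ℝ := L ^ A with hy₁
  have hy1L : L ^ 2 ≤ y₁ := by
    rw [hy₁]; exact pow_le_pow_right₀ (by linarith) hA
  have hy1L1 : L ≤ y₁ := auxsq L y₁ f5 hy1L
  have hY1 : Y₀ ≤ y₁ := le_trans (le_trans (le_max_left _ _) f8) hy1L1
  have hB1 : (B : ℝ) ≤ y₁ := le_trans (le_trans (le_max_right _ _) f8) hy1L1
  have hy1 : 3 ≤ y₁ := by linarith
  have hlogy : Real.log y₁ = A * l := by rw [hy₁, Real.log_pow]
  -- the size of `P₁`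
  obtain ⟨k₀, hk₀⟩ := Finite.exists_max (fun k : κ => Sg (r (cl k)) y₁)
  have hκ := hκ' k₀
  set P₁ : ℝ := Real.exp (Sg (r (cl k₀)) y₁) with hP₁
  have hP₁0 : 0 < P₁ := Real.exp_pos _
  have hP₁lo : Real.exp (-C) * (A * l) ≤ P₁ := by
    have h1 := hM (cl k₀) y₁ hy1
    rw [hlogy] at h1
    have h2 : Real.exp (-C) * (A * l) = Real.exp (Real.log (A * l) - C) := by
      rw [sub_eq_add_neg, Real.exp_add, Real.exp_log (by positivity)]
      ring
    rw [h2, hP₁]
    exact Real.exp_le_exp.mpr h1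
  have hP₁up : P₁ ≤ Real.exp C₃ * (A : ℝ) ^ d * l ^ d := by
    have h1 := hC₃ (cl k₀) y₁ hy1
    rw [hlogy] at h1
    have h2 : Real.exp C₃ * (A : ℝ) ^ d * l ^ d = Real.exp (C₃ + d * Real.log (A * l)) := by
      rw [Real.exp_add, Real.exp_nat_mul, Real.exp_log (by positivity), mul_pow]
      ring
    rw [h2, hP₁]
    exact Real.exp_le_exp.mpr h1
  -- the scales
  set T : ℝ := C₀ * P₁ with hT
  have hT0 : 0 < T := by positivity
  obtain ⟨m, hm1, hm2', hm3⟩ := scales' T (L / (1000 * (d * l))) L hT0 (by linarith) (by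
    rw [le_div_iff₀ (by positivity)]
    have h1 : T * (1000 * (d * l)) ≤ L ^ (3 / 10 : ℝ) := by
      refine le_trans ?_ f3
      calc T * (1000 * (d * l)) = 1000 * d * (C₀ * (P₁ * l)) := by rw [hT]; ring
        _ ≤ 1000 * d * (C₀ * (Real.exp C₃ * (A : ℝ) ^ d * l ^ d * l)) := by
            apply mul_le_mul_of_nonneg_left _ (by positivity)
            apply mul_le_mul_of_nonneg_left _ hC₀0.le
            exact mul_le_mul_of_nonneg_right hP₁up hl0.le
        _ = _ := by ring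
    calc L ^ (7 / 10 : ℝ) * T * (1000 * (d * l)) = L ^ (7 / 10 : ℝ) * (T * (1000 * (d * l))) := by
          ring
      _ ≤ L ^ (7 / 10 : ℝ) * L ^ (3 / 10 : ℝ) :=
          mul_le_mul_of_nonneg_left h1 (Real.rpow_nonneg hLpos.le _)
      _ = L := by rw [← Real.rpow_add hLpos]; norm_num)
  have hm2 : L / (2000 * (d * l)) ≤ (2:ℝ) ^ m * T := by
    have : L / (2000 * (d * l)) = L / (1000 * (d * l)) / 2 := by
      field_simp
      norm_num
    rw [this]; exact hm2'
  set z₀ : ℝ := Real.exp T with hz₀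
  set z : ℝ := z₀ ^ (2 ^ m) with hz
  have hlogz0 : Real.log z₀ = T := Real.log_exp _
  have hz01 : 1 < z₀ := by rw [hz₀]; exact Real.one_lt_exp_iff.mpr hT0
  have hlogzj : ∀ j : ℕ, Real.log (z₀ ^ (2 ^ j)) = (2:ℝ) ^ j * T := by
    intro j
    rw [Real.log_pow, hlogz0]
    push_cast
    ring
  have hlogz : Real.log z = (2:ℝ) ^ m * T := hlogzj m
  have hzpos : 0 < z := by rw [hz]; positivity
  have hdl : (0:ℝ) < d * l := by positivity
  have hldl : l ≤ d * l := le_mul_of_one_le_left hl0.le hdR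
  have hdl10 : (10:ℝ) ≤ d * l := f1.trans hldl
  have hlz1 : Real.log z ≤ L / (1000 * (d * l)) := by rw [hlogz]; exact hm1
  have hlz2 : L / (2000 * (d * l)) ≤ Real.log z := by rw [hlogz]; exact hm2
  have hlzpos : 0 < Real.log z := lt_of_lt_of_le (by positivity) hlz2
  have hzexp : z = Real.exp (Real.log z) := (Real.exp_log hzpos).symm
  have hlzL : Real.log z ≤ L / 10000 := by
    refine hlz1.trans ?_
    apply div_le_div_of_nonneg_left hLpos.le (by norm_num)
    linarith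
  have hz10 : z ≤ X ^ (1 / 10 : ℝ) := by
    rw [hzexp, hXr]
    apply Real.exp_le_exp.mpr
    linarith
  -- the sieving primes
  set PP : Finset ℕ := PS (fun _ => 1) y₁ z with hPP
  have hPPmem : ∀ p ∈ PP, p.Prime ∧ y₁ < (p:ℝ) ∧ (fun _ : ℕ => 1) p ≠ 0 ∧ (p:ℝ) ≤ z := by
    intro p hp
    rw [hPP] at hp
    unfold PS PR at hp
    rw [Finset.mem_filter, Finset.mem_filter, Finset.mem_Icc] at hp
    refine ⟨hp.1.2, hp.2.1, hp.2.2, ?_⟩
    calc (p:ℝ) ≤ (⌊z⌋₊ : ℝ) := by exact_mod_cast hp.1.1.2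
      _ ≤ z := Nat.floor_le hzpos.le
  have huniq : ∀ p ∈ PP, ∀ a k l, hit p a k → hit p a l → k = l := by
    intro p hp
    obtain ⟨h1, h2, h3, h4⟩ := hPPmem p hp
    exact hres p h1 h2 (h4.trans hz10)
  have hrd : ∀ j, ∀ p ∈ PP, (r j p : ℝ) ≤ d := by
    intro j p hp
    obtain ⟨h1, h2, h3, h4⟩ := hPPmem p hp
    have : B < p := by
      have : (B:ℝ) < p := lt_of_le_of_lt hB1 h2
      exact_mod_cast this
    exact_mod_cast hr j p h1 this
  set n : ℕ := PP.card with hn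
  set P : Fin n → ℝ := fun i => ((emb PP i : ℕ) : ℝ) with hP
  set g' : ℕ → κ → ℝ := fun p k => (r (cl k) p : ℝ) / (p : ℝ) with hg'
  set g : Fin n → κ → ℝ := fun i => g' (emb PP i) with hg
  have hPy : ∀ i, y₁ < P i := fun i => (hPPmem _ (emb_mem PP i)).2.1
  have hPz : ∀ i, P i ≤ z := fun i => (hPPmem _ (emb_mem PP i)).2.2.2
  have hP1 : ∀ i, 1 < P i := fun i => by linarith [hPy i]
  have hP0 : ∀ i, 0 < P i := fun i => by linarith [hPy i]
  have hg0 : ∀ i k, 0 ≤ g i k := fun i k => div_nonneg (Nat.cast_nonneg _) (hP0 i).le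
  have hgP : ∀ i k, g i k ≤ d * (1 / P i) := fun i k => by
    have h1 : g i k = (r (cl k) (emb PP i) : ℝ) / P i := rfl
    rw [h1, mul_one_div]
    exact div_le_div_of_nonneg_right (hrd _ _ (emb_mem PP i)) (hP0 i).le
  have hPy' : ∀ i, 1 / P i ≤ 1 / y₁ := fun i =>
    one_div_le_one_div_of_le (by linarith) (hPy i).le
  have hgy : ∀ i k, g i k ≤ d * (1 / y₁) := fun i k =>
    (hgP i k).trans (mul_le_mul_of_nonneg_left (hPy' i) (by linarith))
  have hy1inv : 1 / y₁ ≤ 1 / L ^ 2 := one_div_le_one_div_of_le (by positivity) hy1L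
  have hgL : ∀ i k, g i k ≤ d * (1 / L ^ 2) := fun i k =>
    (hgy i k).trans (mul_le_mul_of_nonneg_left hy1inv (by linarith))
  -- the profile
  set lam : ℝ := c₂ / (2 * P₁) with hlam
  have hlam0 : 0 < lam := by positivity
  have hC₀c : 2 ≤ c₂ * C₀ := by
    have h4 : c₂ * C₀ = 2 + c₂ * Real.exp C := by
      rw [hC₀]
      field_simp
    rw [h4]
    have : 0 < c₂ * Real.exp C := by positivity
    linarith
  have hyz0 : A * l ≤ T := by
    have h1 : Real.exp C * (Real.exp (-C) * (A * l)) = A * l := by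
      rw [← mul_assoc, ← Real.exp_add]
      simp
    have h2 : Real.exp C * (Real.exp (-C) * (A * l)) ≤ C₀ * P₁ := by
      apply mul_le_mul _ hP₁lo (by positivity) hC₀0.le
      rw [hC₀]
      have : 0 < 2 / c₂ := by positivity
      linarith
    rw [h1] at h2
    exact h2
  have hAs : ∀ k, ∀ j < m + 1, 1 ≤ Asum P (fun i => g i k) (z₀ ^ (2 ^ j)) ∧
      lam * (2 ^ j * Real.log z₀) ≤ Asum P (fun i => g i k) (z₀ ^ (2 ^ j)) := by
    intro k j hj
    have h1 : Asum P (fun i => g i k) (z₀ ^ (2 ^ j)) = _ :=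
      Asum_enum' PP (fun p => g' p k) (z₀ ^ (2 ^ j))
    have hxl := hlogzj j
    have h2j : (1:ℝ) ≤ 2 ^ j := one_le_pow₀ (by norm_num)
    have hyx : y₁ ≤ z₀ ^ (2 ^ j) := by
      rw [← Real.log_le_log_iff (by linarith) (by positivity), hxl, hlogy]
      exact hyz0.trans (le_mul_of_one_le_left hT0.le h2j)
    have hxz : z₀ ^ (2 ^ j) ≤ z := by
      rw [hz]
      exact pow_le_pow_right₀ hz01.le (Nat.pow_le_pow_right (by norm_num) (by omega))
    have h2 := hRL (cl k) y₁ z (z₀ ^ (2 ^ j)) hY1 hyx hxz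
    have h3 : c₂ * C₀ * 2 ^ j ≤ c₂ * Real.log (z₀ ^ (2 ^ j)) * Real.exp (-(Sg (r (cl k)) y₁)) := by
      have e0 : Real.exp (-(Sg (r (cl k₀)) y₁)) ≤ Real.exp (-(Sg (r (cl k)) y₁)) :=
        Real.exp_le_exp.mpr (neg_le_neg (hk₀ k))
      have e1 : c₂ * Real.log (z₀ ^ (2 ^ j)) * Real.exp (-(Sg (r (cl k₀)) y₁)) =
          c₂ * C₀ * 2 ^ j := by
        rw [hxl, Real.exp_neg, ← hP₁, hT]
        field_simp
      rw [← e1]
      apply mul_le_mul_of_nonneg_left e0
      rw [hxl]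
      positivity
    have h5 : c₂ * C₀ * 2 ^ j - 1 ≤ Asum P (fun i => g i k) (z₀ ^ (2 ^ j)) := by
      rw [h1]
      refine le_trans (sub_le_sub_right h3 1) (h2.trans ?_)
      apply Finset.sum_le_sum_of_subset_of_nonneg
      · intro s hs
        rw [Finset.mem_filter, Finset.mem_powerset] at hs ⊢
        refine ⟨hs.1.trans ?_, hs.2⟩
        intro p hp
        rw [hPP]
        unfold PS at hp ⊢
        rw [Finset.mem_filter] at hp ⊢
        exact ⟨hp.1, hp.2.1, one_ne_zero⟩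
      · intro s _ _
        exact Finset.prod_nonneg fun p _ => div_nonneg (Nat.cast_nonneg _) (Nat.cast_nonneg _)
    have h6 : 2 ≤ c₂ * C₀ * 2 ^ j := hC₀c.trans (le_mul_of_one_le_right (by positivity) h2j)
    refine ⟨by linarith, ?_⟩
    have h7 : lam * (2 ^ j * Real.log z₀) = c₂ * C₀ * 2 ^ j / 2 := by
      rw [hlam, hlogz0, hT]
      field_simp
    rw [h7]
    linarith
  choose h H using fun k => exists_h P (fun i => g i k) hP1 (fun i => hg0 i k) (m + 1) (by omega)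
    z₀ lam hz01 hlam0 (hAs k)
  have hzz : z₀ ^ (2 ^ (m + 1 - 1)) = z := by rw [hz, Nat.add_sub_cancel]
  rw [hzz] at H
  set K : ℝ := 4 / (lam * ((m + 1 : ℕ) : ℝ)) with hK
  have hK8 : K ≤ 8 * P₁ / (c₂ * l) := by
    rw [hK]
    have h1 : lam * l ≤ lam * ((m + 1 : ℕ) : ℝ) := by
      push_cast
      exact mul_le_mul_of_nonneg_left hm3 hlam0.le
    have h2 : 0 < lam * l := by positivity
    calc 4 / (lam * ((m + 1 : ℕ) : ℝ)) ≤ 4 / (lam * l) :=
          div_le_div_of_nonneg_left (by norm_num) h2 h1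
      _ = 8 * P₁ / (c₂ * l) := by
          rw [hlam]
          field_simp
          norm_num
  have hK0 : 0 ≤ K := (H k₀).K0
  set u : ℝ := (Fintype.card κ : ℝ) with hu
  have hu0 : 0 ≤ u := Nat.cast_nonneg _
  have huP : u ≤ c * L * l / P₁ := by
    refine hκ.trans (le_of_eq ?_)
    rw [Real.exp_neg, ← hP₁]
    rfl
  have huL : u ≤ L / (8 * d) :=
    huP.trans (auxhu c L l d P₁ (Real.exp (-C)) A hLpos hl0 (by linarith) hP₁0 (Real.exp_pos _)
      (by linarith) hc8 hP₁lo)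
  have huL8 : u ≤ L / 8 := by
    refine huL.trans ?_
    apply div_le_div_of_nonneg_left hLpos.le (by norm_num)
    linarith
  -- the sum of the reciprocals
  have hG1 : ∑ i, 1 / P i ≤ l + CM := by
    have h1 : ∑ i, 1 / P i = ∑ p ∈ PP, 1 / (p:ℝ) := by
      have : PP = univ.map (emb PP) := by
        ext p
        rw [Finset.mem_map]
        constructor
        · intro hp
          obtain ⟨i, hi⟩ := emb_surj PP hp
          exact ⟨i, Finset.mem_univ _, hi⟩
        · rintro ⟨i, _, rfl⟩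
          exact emb_mem PP i
      conv_rhs => rw [this]
      rw [Finset.sum_map]
    have hz3 : 3 ≤ ⌊z⌋₊ := by
      apply Nat.le_floor
      push_cast
      have e1 : (2:ℝ) ≤ Real.log z := by
        have e5 : y₁ ≤ z := by
          rw [← Real.log_le_log_iff (by linarith) hzpos, hlogy, hlogz]
          have : (1:ℝ) ≤ 2 ^ m := one_le_pow₀ (by norm_num)
          exact hyz0.trans (le_mul_of_one_le_left hT0.le this)
        have e6 : Real.log y₁ ≤ Real.log z := Real.log_le_log (by linarith) e5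
        rw [hlogy] at e6
        have e7 : l ≤ A * l := le_mul_of_one_le_left hl0.le (by linarith)
        linarith
      have e4 : Real.exp 2 ≤ z := by
        rw [hzexp]; exact Real.exp_le_exp.mpr e1
      have e5 : (3:ℝ) ≤ Real.exp 2 := by
        have := Real.add_one_le_exp (2:ℝ); linarith
      linarith
    have h2 := (abs_le.mp (hM₀ ⌊z⌋₊ hz3)).2
    have h3 : ∑ p ∈ PP, 1 / (p:ℝ) ≤ ∑ p ∈ (Finset.Icc 1 ⌊z⌋₊).filter Nat.Prime, (1 : ℝ) / p := by
      apply Finset.sum_le_sum_of_subset_of_nonneg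
      · intro p hp
        rw [hPP] at hp
        unfold PS PR at hp
        rw [Finset.mem_filter] at hp
        exact hp.1
      · intro p _ _
        positivity
    have h4 : Real.log (Real.log (⌊z⌋₊ : ℝ)) ≤ l := by
      have e1 : (3:ℝ) ≤ (⌊z⌋₊ : ℝ) := by exact_mod_cast hz3
      have e2 : Real.log (⌊z⌋₊ : ℝ) ≤ L := by
        have : Real.log (⌊z⌋₊ : ℝ) ≤ Real.log z :=
          Real.log_le_log (by linarith) (Nat.floor_le hzpos.le)
        linarith
      rw [hl]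
      exact Real.log_le_log (Real.log_pos (by linarith)) e2
    rw [h1]
    have := le_max_left CM₀ 0
    linarith
  have hGn1 : 0 ≤ ∑ i, 1 / P i := Finset.sum_nonneg (fun i _ => by have := hP0 i; positivity)
  have hG : ∀ k, ∑ i, g i k ≤ d * (l + CM) := by
    intro k
    calc ∑ i, g i k ≤ ∑ i, (d : ℝ) * (1 / P i) := Finset.sum_le_sum (fun i _ => hgP i k)
      _ = d * ∑ i, 1 / P i := by rw [Finset.mul_sum]
      _ ≤ d * (l + CM) := mul_le_mul_of_nonneg_left hG1 (by linarith)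
  -- parameters
  set Q : ℝ := Real.exp (L / 40) with hQ
  set J : ℕ := 2 * ⌈11 * (d * l)⌉₊ with hJ
  have hJ1 : 22 * (d * l) ≤ (J:ℝ) := by
    have := Nat.le_ceil (11 * (d * l))
    rw [hJ]; push_cast; linarith
  have hJ2 : (J:ℝ) ≤ 23 * (d * l) := by
    have := Nat.ceil_lt_add_one (show 0 ≤ 11 * (d * l) by positivity)
    rw [hJ]; push_cast; linarith
  have hJe : Even J := ⟨⌈11 * (d * l)⌉₊, by rw [hJ]; ring⟩
  have hQ1 : 1 ≤ Q := Real.one_le_exp (by positivity)
  have hzJ : z ^ J ≤ Real.exp (23 * L / 1000) := by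
    rw [hzexp, ← Real.exp_nat_mul]
    apply Real.exp_le_exp.mpr
    calc (J:ℝ) * Real.log z ≤ (23 * (d * l)) * (L / (1000 * (d * l))) :=
          mul_le_mul hJ2 hlz1 hlzpos.le (by positivity)
      _ = 23 * L / 1000 := by field_simp
  -- sizes of supports
  have hsupp : ∀ D : Col n κ, qq P D ≤ Q → ((supp D).card : ℝ) ≤ L / 40 := by
    intro D hD
    have h1 : Real.exp ((supp D).card : ℝ) ≤ qq P D := by
      unfold qq
      rw [prod_nu1]
      have : Real.exp ((supp D).card : ℝ) = ∏ i ∈ supp D, Real.exp 1 := by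
        rw [Finset.prod_const, ← Real.exp_nat_mul, mul_one]
      rw [this]
      apply Finset.prod_le_prod
      · intro i _; exact (Real.exp_pos _).le
      · intro i _
        have := Real.exp_one_lt_d9
        linarith [hPy i]
    have h2 := h1.trans hD
    rw [hQ] at h2
    exact Real.exp_le_exp.mp h2
  have hδ : ∀ D : Col n κ, qq P D ≤ Q → ∀ k, 2 * ∑ i with D i ≠ none, g i k ≤ d / L := by
    intro D hD k
    have h1 : ∑ i with D i ≠ none, g i k ≤ (supp D).card * (d * (1 / L ^ 2)) := by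
      have : ∑ i ∈ supp D, g i k ≤ ∑ i ∈ supp D, (d * (1 / L ^ 2)) :=
        Finset.sum_le_sum (fun i _ => hgL i k)
      rw [Finset.sum_const, nsmul_eq_mul] at this
      exact this
    have h2 := hsupp D hD
    have h3 : ((supp D).card : ℝ) * (d * (1 / L ^ 2)) ≤ L / 40 * (d * (1 / L ^ 2)) :=
      mul_le_mul_of_nonneg_right h2 (by positivity)
    have h4 : L / 40 * (d * (1 / L ^ 2)) = (d / L) / 40 := by field_simp
    have h5 : 0 ≤ (d:ℝ) / L := by positivity
    linarith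
  -- the count
  have hevent : ∀ D : Col n κ, qq P D ≤ Q ^ 2 * z ^ J →
      |((𝒜.filter (fun a => ∀ i, D i ≠ none → colh PP hit a i = D i)).card : ℝ) - N * nuc g D| ≤
        Err := by
    intro D hD
    have h1 : (𝒜.filter (fun a => ∀ i, D i ≠ none → colh PP hit a i = D i)) =
        𝒜.filter (fun a => ∀ p ∈ TT PP D, hit p a (sT PP D p)) := by
      apply Finset.filter_congr
      intro a _
      exact event_iff' huniq D a
    rw [h1]
    have h2 : ∏ p ∈ TT PP D, g' p (sT PP D p) = nuc g D := TT_nuc PP g' D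
    rw [← h2]
    apply hcount (TT PP D) (sT PP D)
    · rw [TT_prod]
      refine le_trans hD ?_
      rw [hXr]
      calc Q ^ 2 * z ^ J ≤ Real.exp (L / 40) ^ 2 * Real.exp (23 * L / 1000) :=
            mul_le_mul_of_nonneg_left hzJ (by positivity)
        _ = Real.exp (L / 20 + 23 * L / 1000) := by
            rw [← Real.exp_nat_mul, ← Real.exp_add]
            congr 1
            push_cast
            ring
        _ ≤ Real.exp (1 / 4 * L) := Real.exp_le_exp.mpr (by linarith)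
    · intro p hp
      have := hPPmem p (TT_mem hp)
      exact ⟨this.1, this.2.1⟩
  have hn1 : (n:ℝ) + 1 ≤ z := by
    have h1 : PP ⊆ Finset.Icc 2 ⌊z⌋₊ := by
      intro p hp
      have hp' := hp
      rw [hPP] at hp'
      unfold PS PR at hp'
      rw [Finset.mem_filter, Finset.mem_filter, Finset.mem_Icc] at hp'
      rw [Finset.mem_Icc]
      exact ⟨hp'.1.2.two_le, hp'.1.1.2⟩
    have h2 := Finset.card_le_card h1
    rw [Nat.card_Icc] at h2
    have h3 : 1 ≤ ⌊z⌋₊ := Nat.le_floor (by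
      push_cast
      have : Real.exp 0 ≤ z := by rw [hzexp]; exact Real.exp_le_exp.mpr hlzpos.le
      simpa using this)
    have h4 : n + 1 ≤ ⌊z⌋₊ := by
      rw [hn]
      omega
    calc (n:ℝ) + 1 ≤ (⌊z⌋₊ : ℝ) := by exact_mod_cast h4
      _ ≤ z := Nat.floor_le hzpos.le
  have hNpos : 0 < N := lt_of_lt_of_le (Real.rpow_pos_of_pos hX0 _) hN
  -- apply the core theorem
  have hdL : (8:ℝ) * d ≤ L := auxd d L f7
  have hdLL : (d:ℝ) * (1 / L ^ 2) ≤ 1 / 9 := auxdL d L f5 hdL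
  have hz1 : 1 < z := (Real.log_pos_iff hzpos.le).mp hlzpos
  obtain ⟨a, ha, hcov⟩ := core (κ := κ) 𝒜 (colh PP hit) hz1 hP1 hK0 hg0 H Q (d / L) 3 N Err J hJe
    (by norm_num) hNpos hErr0 hQ1 hPz
    (fun i k => by
      have := hgL i k
      linarith)
    (fun i k => by
      have := hgL i k
      linarith)
    (fun i => by
      have h0 : ∑ k, g i k ≤ u * (d * (1 / L ^ 2)) := by
        have : ∑ k : κ, g i k ≤ ∑ _k : κ, (d * (1 / L ^ 2) : ℝ) :=
          Finset.sum_le_sum (fun k _ => hgL i k)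
        rwa [Finset.sum_const, Finset.card_univ, nsmul_eq_mul] at this
      have h1 : u * (d * (1 / L ^ 2)) ≤ (L / (8 * d)) * (d * (1 / L ^ 2)) :=
        mul_le_mul_of_nonneg_right huL (by positivity)
      have h2 : (L / (8 * d)) * (d * (1 / L ^ 2)) = 1 / (8 * L) := by field_simp
      have h3 : 1 / (8 * L) ≤ 1 := by rw [div_le_one (by positivity)]; linarith
      linarith)
    hδ
    (by
      have : u * (d / L) ≤ (L / (8 * d)) * (d / L) :=
        mul_le_mul_of_nonneg_right huL (by positivity)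
      have e : (L / (8 * d)) * (d / L) = 1 / 8 := by field_simp
      linarith)
    (by
      have h1 : ∑ i, 1 / (P i) ^ 2 ≤ (1 / L ^ 2) * ∑ i, 1 / P i := by
        rw [Finset.mul_sum]
        apply Finset.sum_le_sum
        intro i _
        have hp := hP0 i
        have : 1 / (P i) ^ 2 = (1 / P i) * (1 / P i) := by field_simp
        rw [this]
        exact mul_le_mul_of_nonneg_right ((hPy' i).trans hy1inv) (by positivity)
      have h2 : (1 / L ^ 2) * ∑ i, 1 / P i ≤ (1 / L ^ 2) * (2 * L) := by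
        apply mul_le_mul_of_nonneg_left _ (by positivity)
        linarith
      have h3 : (1 / L ^ 2) * (2 * L) = 2 / L := by field_simp
      have h4 : 2 * u * ∑ i, 1 / (P i) ^ 2 ≤ 2 * (L / 8) * (2 / L) := by
        apply mul_le_mul _ (by linarith) (Finset.sum_nonneg (fun i _ => by
          have := hP0 i
          positivity))
          (by positivity)
        linarith
      have e : 2 * (L / 8) * (2 / L) = 1 / 2 := by field_simp; norm_num
      linarith)
    (part_tail u K L l d (d * l) c c₂ P₁ z hu0 hLpos hl0 hdl hdl10 hldl hLexp hc0 hc₂ hcc hP₁0 huP hK8 hK0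
      huL8 (by linarith) hzpos hlzpos hlz1 hlz2 f7)
    (fun k => part_mom u L l d CM J _ hu0 hLpos hLexp hdl hldl hdR f2 hJ1 (hG k) huL8)
    hevent
    (part_fin u L n J z Q Err N hu0 hn1 hzJ hQ (by linarith) f5 hErr0 (by rw [← hXr]; exact hErr)
      (by rw [← hXr]; exact hN))
  refine ⟨a, ha, fun k => ?_⟩
  obtain ⟨i, hi⟩ := hcov k
  have h1 := (colh_eq huniq a i k).mp hi
  have h2 := hPPmem _ (emb_mem PP i)
  exact ⟨emb PP i, h2.1, h2.2.1, h2.2.2.2.trans hz10, h1⟩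

end Pool.Agent.N201.MC
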