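import Pool.Agent.H256R2.SC.Basic

set_option autoImplicit false

/-! # The covering sieve with colour dependent densities: definitions

The definitions follow `Pool.Agent.H256R2.SC.Defs` (helper256 and team), where all colours have the same
density `g i` at the index `i`.  Here the density `g i k` depends on the colour `k`. -/

namespace Pool.Agent.N201.MC

open Finset Pool.Agent.H256R2.SC

variable {n : ℕ} {κ : Type} [Fintype κ] [DecidableEq κ]

/-- model probability of a colour -/
noncomputable def wtc (g : κ → ℝ) (c : Option κ) : ℝ :=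
  match c with
  | none => 1 - ∑ k, g k
  | some k => g k

/-- `1` at `none`, `g k` at the colour `k` -/
noncomputable def nuc1 (g : κ → ℝ) (c : Option κ) : ℝ :=
  match c with
  | none => 1
  | some k => g k

/-- local basis functions: `1` and `1[c = k] - g k` -/
noncomputable def psic1 (g : κ → ℝ) (a c : Option κ) : ℝ :=
  match a with
  | none => 1
  | some k => (if c = some k then 1 else 0) - g k

/-- expectation in the independent model -/
noncomputable def EEc (g : Fin n → κ → ℝ) (F : Col n κ → ℝ) : ℝ :=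
  ∑ x : Col n κ, (∏ i, wtc (g i) (x i)) * F x

/-- basis functions -/
noncomputable def psic (g : Fin n → κ → ℝ) (D x : Col n κ) : ℝ := ∏ i, psic1 (g i) (D i) (x i)

/-- linear combinations of the basis functions -/
noncomputable def VVc (g : Fin n → κ → ℝ) (y : Col n κ → ℝ) (x : Col n κ) : ℝ :=
  ∑ D, y D * psic g D x

/-- product of the `g i (D i)` over the support of `D` -/
noncomputable def nuc (g : Fin n → κ → ℝ) (D : Col n κ) : ℝ := ∏ i, nuc1 (g i) (D i)

/-- coherent coefficients -/
noncomputable def yyc (h : κ → Finset (Fin n) → ℝ) (D : Col n κ) : ℝ := ∏ k, al (h k) (fib D k)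

/-- truncated coherent coefficients -/
noncomputable def yTc (p : Fin n → ℝ) (h : κ → Finset (Fin n) → ℝ) (Q : ℝ) (D : Col n κ) : ℝ :=
  if qq p D ≤ Q then yyc h D else 0

/-- total mass -/
noncomputable def Zsc (g : Fin n → κ → ℝ) (h : κ → Finset (Fin n) → ℝ) : ℝ :=
  ∑ D : Col n κ, (yyc h D) ^ 2 * nuc g D

/-- reduced coefficients on the event that the colour `k` does not occur -/
noncomputable def redc (g : Fin n → κ → ℝ) (y : Col n κ → ℝ) (k : κ) (D' : Col n κ) : ℝ :=
  ∑ D with er k D = D', y D * ∏ i ∈ fib D k, (-(g i k))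

/-- local weights for the moment bound -/
noncomputable def betc (g : κ → ℝ) (t : ℝ) (k₀ : κ) (c : Option κ) : ℝ :=
  match c with
  | none => 1 + 3 * t * g k₀
  | some l => if l = k₀ then (1 + 3 * t) * g l else g l

/-- hypotheses on the profile `h` of one colour -/
structure Hypc (p g : Fin n → ℝ) (h : Finset (Fin n) → ℝ) (z K : ℝ) : Prop where
  p1 : ∀ i, 1 < p i
  g0 : ∀ i, 0 ≤ g i
  z1 : 1 < z
  K0 : 0 ≤ K
  h0 : ∀ s, 0 ≤ h s
  h1 : ∀ s, h s ≤ 1
  anti : ∀ s t, s.Nonempty → s ⊆ t → h t ≤ h s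
  supp : ∀ s, h s ≠ 0 → ∏ i ∈ s, p i ≤ z
  sum1 : ∑ s : Finset (Fin n) with s.Nonempty, h s * ∏ i ∈ s, g i = 1
  cost : ∑ s : Finset (Fin n) with s.Nonempty,
    (h s) ^ 2 * (∏ i ∈ s, g i) * Real.log (∏ i ∈ s, p i) ≤ K

lemma nuc_eq (g : Fin n → κ → ℝ) (D : Col n κ) :
    nuc g D = ∏ k, ∏ i ∈ fib D k, g i k := by
  unfold nuc fib
  simp_rw [Finset.prod_filter]
  rw [Finset.prod_comm]
  refine Finset.prod_congr rfl fun i _ => ?_
  cases h : D i with
  | none => simp [nuc1]
  | some l =>
    simp only [nuc1, Option.some.injEq]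
    rw [Finset.prod_ite_eq]
    simp

lemma nuc_nonneg {g : Fin n → κ → ℝ} (hg : ∀ i k, 0 ≤ g i k) (D : Col n κ) : 0 ≤ nuc g D := by
  unfold nuc
  refine Finset.prod_nonneg fun i _ => ?_
  cases D i with
  | none => simp [nuc1]
  | some l => simpa [nuc1] using hg i l

theorem nuc_er (g : Fin n → κ → ℝ) (k : κ) (D : Col n κ) :
    nuc g D = (∏ i ∈ fib D k, g i k) * nuc g (er k D) := by
  unfold nuc fib
  rw [Finset.prod_filter, ← Finset.prod_mul_distrib]
  refine Finset.prod_congr rfl fun i _ => ?_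
  unfold er
  by_cases h : D i = some k
  · rw [if_pos h, if_pos h, h]
    simp [nuc1]
  · rw [if_neg h, if_neg h, one_mul]

theorem yyc_ins (h : κ → Finset (Fin n) → ℝ) {k : κ} {s : Finset (Fin n)} {D : Col n κ}
    (hD : D ∈ avoid n k) (hs : s ⊆ free D) :
    yyc h (ins k s D) = al (h k) s * yyc h D := by
  unfold yyc
  rw [← Finset.mul_prod_erase univ _ (Finset.mem_univ k),
    ← Finset.mul_prod_erase univ (fun l => al (h l) (fib D l)) (Finset.mem_univ k)]
  rw [fib_ins_self hD, fib_eq_empty hD]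
  have h1 : al (h k) (∅ : Finset (Fin n)) = 1 := by simp [al]
  rw [h1, one_mul]
  congr 1
  apply Finset.prod_congr rfl
  intro l hl
  rw [fib_ins_ne (Finset.ne_of_mem_erase hl) hs]

end Pool.Agent.N201.MC
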